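import Pool.Agent.MWI.StmtsE

/-!
# Squad MWI, row MMF: the main blocks of the words of the pentagon (helper16)
-/

set_option autoImplicit false

namespace Pool.Agent.MWI.H16

open Pool.Agent.Helper14_MV Pool.Agent.Helper2_MV Pool.Agent.MWF

/-- tokens: `t < 7` is the copy `t`, `7 + i` is the name with the role `i` -/
def tk (m : ℕ) (e : Bool) (t : ℕ) : List ℕ := if t < 7 then cc m t else [nm e (t - 7)]

/-- the main block as a list of tokens -/
def LL (s : Bool) : List ℕ :=
  if s then [7, 0, 1, 8, 2, 9, 3, 7, 4, 5, 8, 6, 9] else [7, 0, 8, 1, 2, 9, 3, 7, 4, 8, 5, 6, 9]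

def LA (s : Bool) (i : ℕ) : List ℕ := (LL s).takeWhile (fun t => decide (t ≠ 7 + i))

def LR (s : Bool) (i : ℕ) : List ℕ := ((LL s).dropWhile (fun t => decide (t ≠ 7 + i))).tail

def LU (s : Bool) (i : ℕ) : List ℕ := (LR s i).takeWhile (fun t => decide (t ≠ 7 + i))

def LB (s : Bool) (i : ℕ) : List ℕ := ((LR s i).dropWhile (fun t => decide (t ≠ 7 + i))).tail

theorem mm_eq (m : ℕ) (s e : Bool) :
    MM m s (nm e 0) (nm e 1) (nm e 2) = (LL s).flatMap (tk m e) := by
  cases s <;> simp [MM, LL, tk]

theorem ll_split : ∀ s : Bool, ∀ i < 3, LL s = LA s i ++ (7 + i) :: (LU s i ++ (7 + i) :: LB s i) := by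
  decide

theorem ll_cnt : ∀ s : Bool, ∀ i < 3, (LA s i).count (7 + i) = 0 ∧ (LU s i).count (7 + i) = 0 ∧
    (LB s i).count (7 + i) = 0 ∧ ∀ i' < 3, i' ≠ i → (LU s i).count (7 + i') = 1 := by
  decide

theorem ll_len : ∀ s : Bool, ∀ i < 3, ((LU s i).filter (fun t => decide (t < 7))).length = 4 := by
  decide

theorem ll_cv : ∀ s : Bool, ∀ i < 3, ∀ k < 7, cv s i k = true ↔ k ∈ LU s i := by
  decide

theorem ll_lt : ∀ s : Bool, ∀ i < 3, (∀ t ∈ LA s i, t < 10) ∧ (∀ t ∈ LU s i, t < 10) ∧
    ∀ t ∈ LB s i, t < 10 := by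
  decide

theorem ll_perm : ∀ s : Bool, (LL s).Perm [7, 7, 8, 8, 9, 9, 0, 1, 2, 3, 4, 5, 6] := by
  decide

theorem ll_fil : ∀ s : Bool, (LL s).filter (fun t => decide (t < 7)) = List.range 7 := by
  decide

/-- the projection of the tokens: `true` the copy, `false` the name -/
def tb (e : Bool) (j k t : ℕ) : List Bool :=
  if t < 7 then (if t = k then [true] else []) else if nm e (t - 7) = 3 * j then [false] else []

theorem ll_pj : ∀ s e : Bool, ∀ j < 3, ∀ k < 7,
    (cv s (rl e j) k = true → (LL s).flatMap (tb e j k) = [false, true, false]) ∧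
    (cv s (rl e j) k = false → (LL s).flatMap (tb e j k) = [false, false, true] ∨
      (LL s).flatMap (tb e j k) = [true, false, false]) := by
  decide

theorem nm_rl : ∀ e : Bool, ∀ j < 3, nm e (rl e j) = 3 * j ∧ rl e j < 3 := by
  decide

theorem nm_mod : ∀ (e : Bool) (i : ℕ), nm e i % 3 = 0 := by
  intro e i
  unfold nm
  cases e <;> split_ifs <;> rfl

theorem nm_inj : ∀ e : Bool, ∀ i < 3, ∀ i' < 3, nm e i = nm e i' → i = i' := by
  decide

theorem cc_mod {m k c : ℕ} (h : c ∈ cc m k) : c % 3 = 2 := by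
  unfold cc zz at h
  obtain ⟨i, -, rfl⟩ := List.mem_map.1 h
  omega

theorem cc_mem {m k E : ℕ} : 3 * E + 2 ∈ cc m k ↔ E ∈ ci m k := by
  unfold cc zz
  rw [List.mem_map]
  constructor
  · rintro ⟨i, hi, h⟩
    have : i = E := by omega
    rwa [← this]
  · intro h
    exact ⟨E, h, rfl⟩

theorem cc_pj (m j k k' : ℕ) (hk' : k' < 7) :
    (cc m k').flatMap (pj j k) = if k' = k then zz (List.range m) else [] := by
  unfold cc zz ci
  rw [List.flatMap_map, List.flatMap_map]
  have h : ∀ i : ℕ, pj j k (3 * (7 * i + k') + 2) = if k' = k then [3 * i + 2] else [] := by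
    intro i
    unfold pj
    rw [if_neg (by omega)]
    have h1 : (3 * (7 * i + k') + 2) / 3 % 7 = k' := by omega
    have h2 : (3 * (7 * i + k') + 2) / 3 / 7 = i := by omega
    have h3 : (3 * (7 * i + k') + 2) % 3 = 2 := by omega
    rw [h1, h2, h3]
  simp only [h]
  by_cases hk : k' = k
  · simp only [if_pos hk]
    exact (List.map_eq_flatMap ..).symm
  · simp only [if_neg hk]
    simp

theorem tk_fil (m : ℕ) (e : Bool) (T : List ℕ) :
    (T.flatMap (tk m e)).filter nz = (T.filter (fun t => decide (t < 7))).flatMap (cc m) := by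
  induction T with
  | nil => rfl
  | cons t T ih =>
    rw [List.flatMap_cons, List.filter_append, ih]
    by_cases ht : t < 7
    · have h1 : (tk m e t).filter nz = cc m t := by
        unfold tk
        rw [if_pos ht, List.filter_eq_self]
        intro c hc
        have := cc_mod hc
        unfold nz
        rw [decide_eq_true_iff]
        omega
      rw [h1, List.filter_cons_of_pos (by rw [decide_eq_true_iff]; exact ht), List.flatMap_cons]
    · have h1 : (tk m e t).filter nz = [] := by
        unfold tk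
        rw [if_neg ht]
        have := nm_mod e (t - 7)
        simp [nz, this]
      rw [h1, List.filter_cons_of_neg (by rw [decide_eq_true_iff]; exact ht), List.nil_append]

theorem tk_cnt (m : ℕ) (e : Bool) {i : ℕ} (hi : i < 3) {T : List ℕ} (hT : ∀ t ∈ T, t < 10) :
    (T.flatMap (tk m e)).count (nm e i) = T.count (7 + i) := by
  induction T with
  | nil => rfl
  | cons t T ih =>
    rw [List.flatMap_cons, List.count_append, ih (fun t ht => hT t (List.mem_cons_of_mem _ ht)),
      List.count_cons, Nat.add_comm]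
    congr 1
    have h10 := hT t (List.mem_cons_self ..)
    by_cases ht : t < 7
    · have h1 : nm e i ∉ tk m e t := by
        unfold tk
        rw [if_pos ht]
        intro h
        have h2 := cc_mod h
        have h3 := nm_mod e i
        omega
      rw [List.count_eq_zero_of_not_mem h1]
      have : ¬ t = 7 + i := by omega
      simp [this]
    · unfold tk
      rw [if_neg ht, List.count_singleton]
      by_cases h : t = 7 + i
      · have h1 : t - 7 = i := by omega
        simp [h]
      · have h1 : nm e (t - 7) ≠ nm e i := by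
          intro h2
          have := nm_inj e (t - 7) (by omega) i hi h2
          omega
        simp [h, h1]

theorem tk_pj (m : ℕ) (e : Bool) (j k : ℕ) (T : List ℕ) :
    (T.flatMap (tk m e)).flatMap (pj j k) =
      (T.flatMap (tb e j k)).flatMap (fun b => if b then zz (List.range m) else [0]) := by
  rw [List.flatMap_assoc, List.flatMap_assoc]
  apply List.flatMap_congr
  intro t _
  by_cases ht : t < 7
  · unfold tk tb
    rw [if_pos ht, if_pos ht, cc_pj m j k t ht]
    by_cases h : t = k
    · rw [if_pos h, if_pos h]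
      simp
    · rw [if_neg h, if_neg h]
      rfl
  · unfold tk tb
    rw [if_neg ht, if_neg ht]
    have h1 := nm_mod e (t - 7)
    by_cases h : nm e (t - 7) = 3 * j
    · rw [if_pos h]
      simp [pj, h]
    · rw [if_neg h]
      simp [pj, h, h1]

theorem tk_mem (m : ℕ) (e : Bool) (T : List ℕ) (E : ℕ) :
    3 * E + 2 ∈ T.flatMap (tk m e) ↔ ∃ k < 7, k ∈ T ∧ E ∈ ci m k := by
  rw [List.mem_flatMap]
  constructor
  · rintro ⟨t, ht, h⟩
    unfold tk at h
    split_ifs at h with h7
    · exact ⟨t, h7, ht, cc_mem.1 h⟩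
    · rw [List.mem_singleton] at h
      have := nm_mod e (t - 7)
      omega
  · rintro ⟨k, hk, hkT, hE⟩
    refine ⟨k, hkT, ?_⟩
    unfold tk
    rw [if_pos hk]
    exact cc_mem.2 hE

theorem cc_len (m k : ℕ) : (cc m k).length = m := by
  unfold cc zz ci
  simp

theorem idx_eq (m : ℕ) : zz (idx m) = (List.range 7).flatMap (cc m) := by
  unfold idx zz
  rw [List.map_flatMap]
  rfl

theorem flat_len (m : ℕ) (T : List ℕ) : (T.flatMap (cc m)).length = T.length * m := by
  induction T with
  | nil => simp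
  | cons t T ih =>
    rw [List.flatMap_cons, List.length_append, ih, cc_len, List.length_cons]
    ring

/-- **MMF** -/
theorem mmf : MmfStmt := by
  intro m s e
  rw [mm_eq]
  refine ⟨?_, ?_, ?_, ?_⟩
  · refine ((ll_perm s).flatMap_right (tk m e)).trans ?_
    rw [idx_eq]
    have h1 : ([7, 7, 8, 8, 9, 9, 0, 1, 2, 3, 4, 5, 6] : List ℕ).flatMap (tk m e) =
        nm e 0 :: nm e 0 :: nm e 1 :: nm e 1 :: nm e 2 :: nm e 2 ::
          (List.range 7).flatMap (cc m) := by
      simp [tk, List.range_succ]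
    rw [h1]
    cases e
    · exact List.Perm.refl _
    · exact List.Perm.append_right _
        (show [3, 3, 0, 0, 6, 6].Perm [0, 0, 3, 3, 6, 6] by decide)
  · rw [tk_fil, ll_fil, idx_eq]
  · intro j hj
    obtain ⟨h1, h2⟩ := nm_rl e j hj
    refine ⟨h1, h2, fun k hk => ?_⟩
    obtain ⟨h3, h4⟩ := ll_pj s e j hj k hk
    refine ⟨fun h => ?_, fun h => ?_⟩
    · rw [tk_pj, h3 h]
      simp
    · rcases h4 h with h5 | h5
      · left
        rw [tk_pj, h5]
        simp
      · right
        rw [tk_pj, h5]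
        simp
  · intro i hi
    obtain ⟨c1, c2, c3, c4⟩ := ll_cnt s i hi
    obtain ⟨t1, t2, t3⟩ := ll_lt s i hi
    have htk : tk m e (7 + i) = [nm e i] := by
      unfold tk
      rw [if_neg (by omega)]
      have : 7 + i - 7 = i := by omega
      rw [this]
    refine ⟨(LA s i).flatMap (tk m e), (LU s i).flatMap (tk m e), (LB s i).flatMap (tk m e),
      ?_, ?_, ?_, ?_, ?_, ?_, ?_, ?_⟩
    · conv_lhs => rw [ll_split s i hi]
      rw [List.flatMap_append, List.flatMap_cons, List.flatMap_append, List.flatMap_cons, htk]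
      rfl
    · rw [← List.count_eq_zero, tk_cnt m e hi t2, c2]
    · rw [← List.count_eq_zero, tk_cnt m e hi t1, c1]
    · rw [← List.count_eq_zero, tk_cnt m e hi t3, c3]
    · intro i' hi' hne
      rw [tk_cnt m e hi' t2, c4 i' hi' hne]
    · rw [tk_fil, flat_len, ll_len s i hi]
    · intro k hk h E hE
      exact (tk_mem m e _ E).2 ⟨k, hk, (ll_cv s i hi k hk).1 h, hE⟩
    · intro E hE
      obtain ⟨k, hk, h1, h2⟩ := (tk_mem m e _ E).1 hE
      exact ⟨k, hk, (ll_cv s i hi k hk).2 h1, h2⟩

end Pool.Agent.MWI.H16
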