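import Pool.Agent.MWI.StmtsT

/-!
# Squad MWI, row WH3: the case h3 (helper16)
-/

set_option autoImplicit false

namespace Pool.Agent.MWI.H16

open Pool.Agent.Helper14_MV Pool.Agent.Helper2_MV Pool.Agent.MWF

/-- substitution of four letters -/
def sb4 (u0 u1 u3 u4 : List ℕ) (c : ℕ) : List ℕ :=
  if c = 0 then u0 else if c = 1 then u1 else if c = 3 then u3 else u4

theorem fil_rep (a : ℕ) : (List.replicate a 0).filter it = [] := by
  rw [List.filter_eq_nil_iff]
  intro c hc
  rw [List.eq_of_mem_replicate hc]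
  decide

theorem it2 (i : ℕ) : it (3 * i + 2) = false := by
  unfold it
  rw [decide_eq_false_iff_not]
  omega

theorem it1 (i : ℕ) : it (3 * i + 1) = true := by
  unfold it
  rw [decide_eq_true_iff]
  omega

theorem pA_fil (a b : ℕ → ℕ) (P : List ℕ) : (pA a b P).filter it = ts P := by
  unfold pA ts
  induction P with
  | nil => rfl
  | cons i P ih =>
    rw [List.flatMap_cons, List.filter_append, ih, List.map_cons, List.filter_append, fil_rep,
      List.nil_append, List.filter_cons, it2]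
    simp only [Bool.false_eq_true, if_false]
    rw [List.filter_append, fil_rep, List.nil_append]
    simp [it1]

theorem pC_fil (a b : ℕ → ℕ) (Q : List ℕ) : (pC a b Q).filter it = ts Q := by
  unfold pC ts
  induction Q with
  | nil => rfl
  | cons i Q ih =>
    rw [List.flatMap_cons, List.filter_append, ih, List.map_cons, List.filter_cons, it1]
    simp only [if_true]
    rw [List.filter_append, fil_rep, List.nil_append, List.filter_cons, it2]
    simp only [Bool.false_eq_true, if_false]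
    rw [fil_rep]
    rfl

theorem pA_append (a b : ℕ → ℕ) (P P' : List ℕ) : pA a b (P ++ P') = pA a b P ++ pA a b P' := by
  unfold pA
  rw [List.flatMap_append]

theorem pC_append (a b : ℕ → ℕ) (P P' : List ℕ) : pC a b (P ++ P') = pC a b P ++ pC a b P' := by
  unfold pC
  rw [List.flatMap_append]

theorem pA_cons (a b : ℕ → ℕ) (i : ℕ) (P : List ℕ) : pA a b (i :: P) =
    (List.replicate (a i) 0 ++ (3 * i + 2) :: (List.replicate (b i) 0 ++ [3 * i + 1])) ++
      pA a b P := by
  unfold pA
  rw [List.flatMap_cons]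

theorem pC_cons (a b : ℕ → ℕ) (i : ℕ) (P : List ℕ) : pC a b (i :: P) =
    ((3 * i + 1) :: (List.replicate (a i) 0 ++ (3 * i + 2) :: List.replicate (b i) 0)) ++
      pC a b P := by
  unfold pC
  rw [List.flatMap_cons]

theorem pA_end (a b : ℕ → ℕ) (P l : List ℕ) (x : ℕ) (h : pA a b P = l ++ [x]) : x % 3 = 1 := by
  rcases List.eq_nil_or_concat P with rfl | ⟨P', i, rfl⟩
  · simp [pA] at h
  · have e : pA a b (P'.concat i) = (pA a b P' ++ (List.replicate (a i) 0 ++
        (3 * i + 2) :: List.replicate (b i) 0)) ++ [3 * i + 1] := by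
      rw [List.concat_eq_append, pA_append, pA_cons]
      simp [pA]
    have h1 := congrArg List.reverse (e.symm.trans h)
    rw [List.reverse_concat, List.reverse_concat] at h1
    have h2 : 3 * i + 1 = x := (List.cons.inj h1).1
    omega

theorem pC_beg (a b : ℕ → ℕ) (Q l : List ℕ) (x : ℕ) (h : pC a b Q = x :: l) : x % 3 = 1 := by
  cases Q with
  | nil => simp [pC] at h
  | cons i Q =>
    rw [pC_cons, List.cons_append] at h
    have := (List.cons.inj h).1
    omega

theorem bd_of {a b : ℕ → ℕ} {P Q M : List ℕ} (hM : ∀ c ∈ M, c % 3 ≠ 1)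
    (hne : ∀ h, M ≠ 0 :: (zz h ++ [0])) : Bd P Q (bb a b P M Q) :=
  ⟨pA a b P, M, pC a b Q, rfl, pA_fil a b P, pC_fil a b Q, hM, pA_end a b P,
    fun x l => pC_beg a b Q l x, hne⟩

theorem rep_two {k : ℕ} (hk : k ≠ 0) : ∃ c, List.replicate (2 * k) 0 = 0 :: 0 :: List.replicate c 0 := by
  obtain ⟨j, rfl⟩ : ∃ j, k = j + 1 := ⟨k - 1, by omega⟩
  exact ⟨2 * j, rfl⟩

theorem pA_two {a b : ℕ → ℕ} {P : List ℕ} {i : ℕ} (hi : i ∈ P) (h : a i + b i ≠ 0) :
    ∃ A1 A2, pA (fun i => 2 * a i) (fun i => 2 * b i) P = A1 ++ 0 :: 0 :: A2 := by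
  obtain ⟨P1, P2, rfl⟩ := List.append_of_mem hi
  rw [pA_append, pA_cons]
  by_cases ha : a i = 0
  · obtain ⟨c, hc⟩ := rep_two (k := b i) (by omega)
    rw [hc]
    exact ⟨pA (fun i => 2 * a i) (fun i => 2 * b i) P1 ++
      (List.replicate (2 * a i) 0 ++ [3 * i + 2]), List.replicate c 0 ++ [3 * i + 1] ++
      pA (fun i => 2 * a i) (fun i => 2 * b i) P2, by simp⟩
  · obtain ⟨c, hc⟩ := rep_two ha
    rw [hc]
    exact ⟨pA (fun i => 2 * a i) (fun i => 2 * b i) P1, List.replicate c 0 ++ (3 * i + 2) ::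
      (List.replicate (2 * b i) 0 ++ [3 * i + 1]) ++
      pA (fun i => 2 * a i) (fun i => 2 * b i) P2, by simp⟩

theorem pC_two {a b : ℕ → ℕ} {P : List ℕ} {i : ℕ} (hi : i ∈ P) (h : a i + b i ≠ 0) :
    ∃ A1 A2, pC (fun i => 2 * a i) (fun i => 2 * b i) P = A1 ++ 0 :: 0 :: A2 := by
  obtain ⟨P1, P2, rfl⟩ := List.append_of_mem hi
  rw [pC_append, pC_cons]
  by_cases ha : a i = 0
  · obtain ⟨c, hc⟩ := rep_two (k := b i) (by omega)
    rw [hc]
    exact ⟨pC (fun i => 2 * a i) (fun i => 2 * b i) P1 ++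
      (3 * i + 1) :: (List.replicate (2 * a i) 0 ++ [3 * i + 2]), List.replicate c 0 ++
      pC (fun i => 2 * a i) (fun i => 2 * b i) P2, by simp⟩
  · obtain ⟨c, hc⟩ := rep_two ha
    rw [hc]
    exact ⟨pC (fun i => 2 * a i) (fun i => 2 * b i) P1 ++ [3 * i + 1], List.replicate c 0 ++
      (3 * i + 2) :: (List.replicate (2 * b i) 0) ++
      pC (fun i => 2 * a i) (fun i => 2 * b i) P2, by simp⟩

theorem pA_mem {a b : ℕ → ℕ} {P : List ℕ} {i : ℕ} (hi : i ∈ P) : 3 * i + 2 ∈ pA a b P := by
  obtain ⟨P1, P2, rfl⟩ := List.append_of_mem hi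
  rw [pA_append, pA_cons]
  simp

theorem pC_mem {a b : ℕ → ℕ} {P : List ℕ} {i : ℕ} (hi : i ∈ P) : 3 * i + 2 ∈ pC a b P := by
  obtain ⟨P1, P2, rfl⟩ := List.append_of_mem hi
  rw [pC_append, pC_cons]
  simp

theorem zz_mod {h : List ℕ} {c : ℕ} (hc : c ∈ zz h) : c % 3 = 2 := by
  unfold zz at hc
  obtain ⟨i, -, rfl⟩ := List.mem_map.1 hc
  omega

/-- **WH3** -/
theorem wh3 (dbl : DblStmt) : Wh3Stmt := by
  intro n β hT hX a b P Q h m hm hPQ hh hW hex
  have h2 := dbl β hT.iso a b P Q h m hPQ hh hW 2 (by norm_num)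
  obtain ⟨A, hA⟩ : ∃ A, A = pA (fun i => 2 * a i) (fun i => 2 * b i) P := ⟨_, rfl⟩
  obtain ⟨C, hC⟩ : ∃ C, C = pC (fun i => 2 * a i) (fun i => 2 * b i) Q := ⟨_, rfl⟩
  have hlen : h.length = m := by
    rw [hh.length_eq, List.length_range]
  obtain ⟨i0, h', rfl⟩ : ∃ i0 h', h = i0 :: h' := by
    cases h with
    | nil => simp at hlen; omega
    | cons i0 h' => exact ⟨i0, h', rfl⟩
  have hw : bb (fun i => 2 * a i) (fun i => 2 * b i) P (0 :: (zz (i0 :: h') ++ [0])) Q =
      A ++ (0 :: (3 * i0 + 2) :: (zz h' ++ [0]) ++ C) := by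
    rw [hA, hC]
    rfl
  have hw2 : ∀ M, bb (fun i => 2 * a i) (fun i => 2 * b i) P M Q = A ++ (M ++ C) := by
    intro M
    rw [hA, hC]
    rfl
  rw [hw] at h2
  by_cases hleft : ∃ i ∈ P, a i + b i ≠ 0
  · obtain ⟨i, hi, hab⟩ := hleft
    obtain ⟨A1, A2, hA12⟩ := pA_two hi hab
    rw [← hA] at hA12
    obtain ⟨n', rfl⟩ : ∃ n', n = n' + 1 := ⟨n - 1, by have := hT.pos; omega⟩
    have hr : RR β (0 :: 0 :: (A2 ++ [0])) (0 :: 0 :: (A2 ++ List.replicate (n' + 1 + 1) 0)) := by
      have h3 := RR.sub (fun c => if c = 1 then A2 else [c]) hT.rn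
      have e1 : ([0, 0, 1, 0] : List ℕ).flatMap (fun c => if c = 1 then A2 else [c]) =
          0 :: 0 :: (A2 ++ [0]) := by simp
      have e2 : (([0, 0, 1] : List ℕ) ++ List.replicate (n' + 1 + 1) 0).flatMap
          (fun c => if c = 1 then A2 else [c]) =
          0 :: 0 :: (A2 ++ List.replicate (n' + 1 + 1) 0) := by
        rw [List.flatMap_append]
        have e3 : (List.replicate (n' + 1 + 1) 0).flatMap (fun c => if c = 1 then A2 else [c]) =
            List.replicate (n' + 1 + 1) 0 := by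
          have e4 : (List.replicate (n' + 1 + 1) 0).flatMap
              (fun c => if c = 1 then A2 else [c]) =
              (List.replicate (n' + 1 + 1) 0).flatMap (fun c => [c]) := by
            apply List.flatMap_congr
            intro c hc
            rw [List.eq_of_mem_replicate hc]
            rfl
          rw [e4]
          exact List.flatMap_singleton' _
        rw [e3]
        simp
      have h4 : RR β (([0, 0, 1, 0] : List ℕ).flatMap (fun c => if c = 1 then A2 else [c]))
          ((([0, 0, 1] : List ℕ) ++ List.replicate (n' + 1 + 1) 0).flatMap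
            (fun c => if c = 1 then A2 else [c])) := h3
      rw [e1, e2] at h4
      exact h4
    have h5 := ctx A1 ((3 * i0 + 2) :: (zz h' ++ [0]) ++ C) hr
    have e1 : A1 ++ 0 :: 0 :: (A2 ++ [0]) ++ ((3 * i0 + 2) :: (zz h' ++ [0]) ++ C) =
        A ++ (0 :: (3 * i0 + 2) :: (zz h' ++ [0]) ++ C) := by
      rw [hA12]
      simp
    have e2 : A1 ++ 0 :: 0 :: (A2 ++ List.replicate (n' + 1 + 1) 0) ++
        ((3 * i0 + 2) :: (zz h' ++ [0]) ++ C) =
        A ++ ((List.replicate (n' + 1 + 1) 0 ++ (3 * i0 + 2) :: (zz h' ++ [0])) ++ C) := by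
      rw [hA12]
      simp
    rw [e1, e2] at h5
    refine ⟨_, rtr h2 h5, ?_⟩
    rw [← hw2]
    apply bd_of
    · intro c hc
      rw [List.mem_append, List.mem_cons, List.mem_append, List.mem_singleton] at hc
      rcases hc with hc | hc | hc | hc
      · rw [List.eq_of_mem_replicate hc]; decide
      · omega
      · have := zz_mod hc; omega
      · rw [hc]; decide
    · intro g hg
      cases g with
      | nil =>
        have h6 := congrArg List.length hg
        simp [zz] at h6
        omega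
      | cons x g =>
        have h6 : List.replicate (n' + 1 + 1) 0 ++ (3 * i0 + 2) :: (zz h' ++ [0]) =
            0 :: 0 :: (List.replicate n' 0 ++ (3 * i0 + 2) :: (zz h' ++ [0])) := rfl
        rw [h6] at hg
        have h7 : (0 : ℕ) :: (List.replicate n' 0 ++ (3 * i0 + 2) :: (zz h' ++ [0])) =
          (3 * x + 2) :: (zz g ++ [0]) := (List.cons.inj hg).2
        have h8 := (List.cons.inj h7).1
        omega
  · obtain ⟨i, hi, hab⟩ := hex
    have hiQ : i ∈ Q := by
      rcases List.mem_append.1 hi with h3 | h3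
      · exact absurd ⟨i, h3, hab⟩ hleft
      · exact h3
    obtain ⟨C1, C2, hC12⟩ := pC_two hiQ hab
    rw [← hC] at hC12
    obtain ⟨z, hz⟩ : ∃ z, z = 3 * i0 + 2 := ⟨_, rfl⟩
    rw [← hz] at h2
    have hz0 : z ≠ 0 := by omega
    have key : RR β (A ++ (0 :: z :: (zz h' ++ [0]) ++ C)) (A ++ (z :: 0 :: (zz h' ++ [0]) ++ C)) := by
      have hi0 : i0 ∈ P ++ Q := hPQ.symm.subset (hh.subset (List.mem_cons_self ..))
      rcases List.mem_append.1 hi0 with h3 | h3
      · have h4 : z ∈ A := by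
          rw [hz, hA]
          exact pA_mem h3
        obtain ⟨X, Y, hXY⟩ := List.append_of_mem h4
        have h5 : RR β (z :: (Y ++ 0 :: z :: (zz h' ++ 0 :: (C1 ++ [0, 0]))))
            (z :: (Y ++ z :: 0 :: (zz h' ++ 0 :: (C1 ++ [0, 0])))) := by
          have h6 := RR.sub (sb4 [z] Y [0] (zz h' ++ 0 :: C1)) hX.b.symm
          simpa [sb4] using h6
        have h7 := ctx X C2 h5
        rw [hXY, hC12]
        simpa using h7
      · have h4 : z ∈ C := by
          rw [hz, hC]
          exact pC_mem h3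
        have h4' : z ∈ C1 ∨ z ∈ C2 := by
          rw [hC12, List.mem_append, List.mem_cons, List.mem_cons] at h4
          rcases h4 with h5 | h5 | h5 | h5
          · exact Or.inl h5
          · exact absurd h5 hz0
          · exact absurd h5 hz0
          · exact Or.inr h5
        rcases h4' with h5 | h5
        · obtain ⟨D1, D2, hD⟩ := List.append_of_mem h5
          have h6 : RR β (0 :: z :: (zz h' ++ 0 :: (D1 ++ z :: (D2 ++ [0, 0]))))
              (z :: 0 :: (zz h' ++ 0 :: (D1 ++ z :: (D2 ++ [0, 0])))) := by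
            have h7 := RR.sub (sb4 [z] (zz h' ++ 0 :: D1) [0] D2) hX.a.symm
            simpa [sb4] using h7
          have h7 := ctx A C2 h6
          rw [hC12, hD]
          simpa using h7
        · obtain ⟨D1, D2, hD⟩ := List.append_of_mem h5
          have h6 : RR β (0 :: z :: (zz h' ++ 0 :: (C1 ++ 0 :: 0 :: (D1 ++ [z]))))
              (z :: 0 :: (zz h' ++ 0 :: (C1 ++ 0 :: 0 :: (D1 ++ [z])))) := by
            have h7 := RR.sub (sb4 [0] (zz h' ++ 0 :: C1) [z] D1) hX.c
            simpa [sb4] using h7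
          have h7 := ctx A D2 h6
          rw [hC12, hD]
          simpa using h7
    refine ⟨_, rtr h2 key, ?_⟩
    rw [← hw2]
    apply bd_of
    · intro c hc
      rw [List.mem_cons, List.mem_cons, List.mem_append, List.mem_singleton] at hc
      rcases hc with hc | hc | hc | hc
      · omega
      · omega
      · have := zz_mod hc; omega
      · rw [hc]; decide
    · intro g hg
      exact hz0 (List.cons.inj hg).1

end Pool.Agent.MWI.H16
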